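import Pool.Agent.H515.SP.Final

/-!
# Degrees of semiproportional irreducible characters: a divisibility theorem

Let `G` be a finite group and let `V`, `W` be irreducible complex representations with
semiproportional characters (in the words of the frozen statement `S02965`). If the degrees are
different, write them as `r d` and `s d` with `r`, `s` coprime and put `n = r² + s²`. Then
`rad(n) · n · r s d` divides `|G|`; in particular some prime `p ≡ 1 (mod 4)` has `p² ∣ |G|`.
-/

set_option autoImplicit false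

open CategoryTheory

namespace Pool.Agent.Results.MP_c1c6b6_al.DegreeRatio

/-- If two semiproportional irreducible characters of a finite group `G` have different degrees
`r d ≠ s d` (`r`, `s` coprime), then `rad(r² + s²) · r s d (r² + s²)` divides `|G|`, and there is a
prime `p ≡ 1 (mod 4)` whose square divides `|G|`. -/
theorem result (G : Type) [Group G] [Fintype G] (V W : FDRep ℂ G)
    (hV : Simple V) (hW : Simple W)
    (hnp : ¬ ∃ a b : ℂ, (a ≠ 0 ∨ b ≠ 0) ∧ ∀ g : G, a * V.character g = b * W.character g)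
    (hsp : ∃ M : Set G, (∀ g h : G, g ∈ M → h * g * h⁻¹ ∈ M) ∧
      (∃ a b : ℂ, (a ≠ 0 ∨ b ≠ 0) ∧ ∀ g : G, g ∈ M → a * V.character g = b * W.character g) ∧
      (∃ a b : ℂ, (a ≠ 0 ∨ b ≠ 0) ∧ ∀ g : G, g ∉ M → a * V.character g = b * W.character g))
    (hne : V.character 1 ≠ W.character 1) :
    (∃ r s d : ℕ, r ≠ s ∧ Nat.Coprime r s ∧
      Module.finrank ℂ V = r * d ∧ Module.finrank ℂ W = s * d ∧
      (∏ p ∈ (r ^ 2 + s ^ 2).primeFactors, p) * (r * s * d * (r ^ 2 + s ^ 2)) ∣ Nat.card G) ∧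
    ∃ p : ℕ, p.Prime ∧ p % 4 = 1 ∧ p ^ 2 ∣ Nat.card G := by
  obtain ⟨t, M, r, s, d, h⟩ := Pool.Agent.H515.SP.exists_pr_of_semi V W hV hW hnp hsp
  have hrs : r ≠ s := by
    rintro rfl
    exact hne (by rw [h.deg1, h.deg2])
  have h1 := h.rad_dvd hrs
  refine ⟨⟨r, s, d, hrs, h.cop, ?_, ?_, h1⟩, ?_⟩
  · have := h.deg1
    rw [FDRep.char_one] at this
    exact_mod_cast this
  · have := h.deg2
    rw [FDRep.char_one] at this
    exact_mod_cast this
  · obtain ⟨p, hp, hp4⟩ :=
      Pool.Agent.H515.SP.exists_prime_one_mod_four h.cop h.rpos h.spos hrs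
    refine ⟨p, Nat.prime_of_mem_primeFactors hp, hp4, ?_⟩
    have h2 : p ∣ ∏ p ∈ (r ^ 2 + s ^ 2).primeFactors, p := Finset.dvd_prod_of_mem _ hp
    have h3 : p ∣ r * s * d * (r ^ 2 + s ^ 2) :=
      (Nat.dvd_of_mem_primeFactors hp).trans (dvd_mul_left _ _)
    rw [pow_two]
    exact (mul_dvd_mul h2 h3).trans h1

end Pool.Agent.Results.MP_c1c6b6_al.DegreeRatio
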