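import Pool.Agent.H515.MB.Main

/-!
# Degrees of semiproportional irreducible characters: metabelian groups

Let `V`, `W` be irreducible complex representations of a finite group `G` with semiproportional
characters (in the words of the frozen statement `S02965`). If the second derived subgroup of `G`
acts trivially on `V` and on `W` (for instance if `G` is metabelian), then the degrees are equal.
-/

set_option autoImplicit false

open CategoryTheory
open scoped commutatorElement

namespace Pool.Agent.Results.MP_c1c6b6_al.Metabelian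

/-- Two semiproportional irreducible characters of a finite group `G` whose kernels contain the
second derived subgroup of `G` have the same degree; in particular this holds for every two
semiproportional irreducible characters of a metabelian group. -/
theorem result (G : Type) [Group G] [Fintype G] (V W : FDRep ℂ G)
    (hV : Simple V) (hW : Simple W)
    (hnp : ¬ ∃ a b : ℂ, (a ≠ 0 ∨ b ≠ 0) ∧ ∀ g : G, a * V.character g = b * W.character g)
    (hsp : ∃ M : Set G, (∀ g h : G, g ∈ M → h * g * h⁻¹ ∈ M) ∧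
      (∃ a b : ℂ, (a ≠ 0 ∨ b ≠ 0) ∧ ∀ g : G, g ∈ M → a * V.character g = b * W.character g) ∧
      (∃ a b : ℂ, (a ≠ 0 ∨ b ≠ 0) ∧ ∀ g : G, g ∉ M → a * V.character g = b * W.character g))
    (hder : ∀ x ∈ derivedSeries G 2, V.ρ x = 1 ∧ W.ρ x = 1) :
    V.character 1 = W.character 1 := by
  obtain ⟨t, M, r, s, d, h⟩ := Pool.Agent.H515.SP.exists_pr_of_semi V W hV hW hnp hsp
  have hirrV := Pool.Agent.H515.MB.irr_of_simple V hV
  have hirrW := Pool.Agent.H515.MB.irr_of_simple W hW
  have hsemi : ∀ x, (s * V.character x - r * W.character x) *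
      (r * V.character x + s * W.character x) = 0 := by
    intro x
    by_cases hx : x ∈ M
    · rw [h.on1 x hx, h.on2 x hx]; ring
    · rw [h.off1 x hx, h.off2 x hx]; ring
  have hd1 : Module.finrank ℂ V = r * d := by
    have := h.deg1
    rw [FDRep.char_one] at this
    exact_mod_cast this
  have hd2 : Module.finrank ℂ W = s * d := by
    have := h.deg2
    rw [FDRep.char_one] at this
    exact_mod_cast this
  have hcom : ∀ a b a' b' : G, ∃ z ∈ derivedSeries G 2,
      (a * b * a⁻¹ * b⁻¹) * (a' * b' * a'⁻¹ * b'⁻¹) =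
        z * ((a' * b' * a'⁻¹ * b'⁻¹) * (a * b * a⁻¹ * b⁻¹)) := by
    intro a b a' b'
    have m1 : ∀ u v : G, u * v * u⁻¹ * v⁻¹ ∈ derivedSeries G 1 := by
      intro u v
      rw [derivedSeries_succ, derivedSeries_zero]
      exact Subgroup.commutator_mem_commutator (Subgroup.mem_top u) (Subgroup.mem_top v)
    refine ⟨⁅a * b * a⁻¹ * b⁻¹, a' * b' * a'⁻¹ * b'⁻¹⁆, ?_, ?_⟩
    · rw [derivedSeries_succ]
      exact Subgroup.commutator_mem_commutator (m1 a b) (m1 a' b')
    · rw [commutatorElement_def]
      group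
  have hcV : ∀ a b a' b' : G, V.ρ (a * b * a⁻¹ * b⁻¹) * V.ρ (a' * b' * a'⁻¹ * b'⁻¹) =
      V.ρ (a' * b' * a'⁻¹ * b'⁻¹) * V.ρ (a * b * a⁻¹ * b⁻¹) := by
    intro a b a' b'
    obtain ⟨z, hz, e⟩ := hcom a b a' b'
    rw [← map_mul, ← map_mul, e, map_mul, (hder z hz).1, one_mul]
  have hcW : ∀ a b a' b' : G, W.ρ (a * b * a⁻¹ * b⁻¹) * W.ρ (a' * b' * a'⁻¹ * b'⁻¹) =
      W.ρ (a' * b' * a'⁻¹ * b'⁻¹) * W.ρ (a * b * a⁻¹ * b⁻¹) := by
    intro a b a' b'
    obtain ⟨z, hz, e⟩ := hcom a b a' b'
    rw [← map_mul, ← map_mul, e, map_mul, (hder z hz).2, one_mul]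
  rcases lt_trichotomy s r with hlt | heq | hlt
  · exact absurd (Pool.Agent.H515.MB.main_aux V.ρ W.ρ hirrV hirrW h.cop hlt h.spos h.dpos hd1 hd2
      hsemi hcV) id
  · rw [FDRep.char_one, FDRep.char_one, hd1, hd2, heq]
  · have hsemi' : ∀ x, (r * W.character x - s * V.character x) *
        (s * W.character x + r * V.character x) = 0 := fun x => by
      linear_combination -(hsemi x)
    exact absurd (Pool.Agent.H515.MB.main_aux W.ρ V.ρ hirrW hirrV h.cop.symm hlt h.rpos h.dpos
      hd2 hd1 hsemi' hcW) id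

end Pool.Agent.Results.MP_c1c6b6_al.Metabelian
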