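import Pool.Agent.H515.CP.Family

/-!
# Degrees of semiproportional irreducible characters: quotients of direct products

`EqualDegrees G` says that `G` satisfies the conjecture (in the words of the frozen statement
`S02965`). The class of finite groups with this property is closed under finite direct products
and under quotients; it contains all nilpotent groups, all metabelian groups, all groups of odd
order, all groups whose order is not divisible by the square of a prime `≡ 1 (mod 4)` and, more
generally, all groups whose order is divisible by none of the numbers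
`rad(r² + s²) r s (r² + s²)`, `r > s ≥ 1` coprime.
-/

set_option autoImplicit false

open CategoryTheory

namespace Pool.Agent.Results.MP_c1c6b6_al.Products

/-- `G` satisfies the conjecture: any two semiproportional irreducible complex characters of `G`
have the same degree (in the words of the frozen statement `S02965`). -/
def EqualDegrees (G : Type) [Group G] : Prop :=
  ∀ V W : FDRep ℂ G, Simple V → Simple W →
    (¬ ∃ a b : ℂ, (a ≠ 0 ∨ b ≠ 0) ∧ ∀ g : G, a * V.character g = b * W.character g) →
    (∃ M : Set G, (∀ g h : G, g ∈ M → h * g * h⁻¹ ∈ M) ∧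
      (∃ a b : ℂ, (a ≠ 0 ∨ b ≠ 0) ∧ ∀ g : G, g ∈ M → a * V.character g = b * W.character g) ∧
      (∃ a b : ℂ, (a ≠ 0 ∨ b ≠ 0) ∧ ∀ g : G, g ∉ M → a * V.character g = b * W.character g)) →
    V.character 1 = W.character 1

/-- Let the finite group `G` be a homomorphic image of the direct product of a finite family of
finite groups `A i`, each of which satisfies the conjecture, or is nilpotent, or is metabelian, or
has odd order, or has order not divisible by `p²` for every prime `p ≡ 1 (mod 4)`, or has order not
divisible by `rad(r² + s²) r s (r² + s²)` for all coprime `r > s ≥ 1`. Then any two semiproportional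
irreducible characters of `G` have the same degree. -/
theorem result {ι : Type} [Finite ι] (A : ι → Type) [∀ i, Group (A i)] [∀ i, Finite (A i)]
    (G : Type) [Group G] [Finite G] (f : (∀ i, A i) →* G) (hf : Function.Surjective f)
    (hA : ∀ i, EqualDegrees (A i) ∨ Group.IsNilpotent (A i) ∨ derivedSeries (A i) 2 = ⊥ ∨
      Odd (Nat.card (A i)) ∨
      (∀ p : ℕ, p.Prime → p % 4 = 1 → ¬ p ^ 2 ∣ Nat.card (A i)) ∨
      (∀ r s : ℕ, 0 < s → s < r → Nat.Coprime r s →
        ¬ (∏ p ∈ (r ^ 2 + s ^ 2).primeFactors, p) * (r * s * (r ^ 2 + s ^ 2)) ∣
          Nat.card (A i))) :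
    EqualDegrees G := by
  refine Pool.Agent.H515.CP.EqualDegrees.of_surjective f hf
    (Pool.Agent.H515.CP.EqualDegrees.pi A fun i => ?_)
  rcases hA i with h | h | h | h | h | h
  · exact h
  · exact Pool.Agent.H515.CP.EqualDegrees.of_nilpotent
  · exact Pool.Agent.H515.CP.EqualDegrees.of_metabelian h
  · exact Pool.Agent.H515.CP.EqualDegrees.of_odd h
  · exact Pool.Agent.H515.CP.EqualDegrees.of_no_sq h
  · exact Pool.Agent.H515.CP.EqualDegrees.of_card h

end Pool.Agent.Results.MP_c1c6b6_al.Products
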